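import Pool.Agent.H82.FP.Targets

/-! Board `flp_modules`, row KST: four-stars with two-ended tubes. -/

set_option autoImplicit false

namespace Pool.Agent.H42.FPL

open MeasureTheory Set
open Pool.Agent.H83.G
open Pool.Agent.H82.FP
open Pool.Agent.H22.G4 (nv Ind)
open Pool.Agent.H22.G (co)
open scoped ENNReal NNReal RealInnerProductSpace

open Classical in
/-- the first part, one family -/
private theorem first (R δ r : ℝ) (TT : Finset (Pk 2)) (QQ Q4 : Finset (Zi 2))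
    (Pr : Pk 2 → Zi 2 → Prop) (M : ℝ) (k l : ℕ) (hsub : Q4 ⊆ QQ)
    (hM : ∀ q ∈ Q4, M ≤ ((TT.filter fun T => Inc R δ T q ∧ Pr T (bl R r q)).card : ℝ))
    (hl : ∀ T ∈ TT, ∀ B : Zi 2, Pr T B →
      (QQ.filter fun q => bl R r q = B ∧ Inc R δ T q).card < 2 ^ (l + 1))
    (hk : ∀ T ∈ TT, ∀ B : Zi 2, Pr T B →
      ((QQ.image (bl R r)).filter fun B' => Pr T B').card < 2 ^ (k + 1)) :
    (Q4.card : ℝ) * M ≤ 4 * 2 ^ (l + k) * TT.card := by
  have h1 : (Q4.card : ℝ) * M ≤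
      ∑ q ∈ Q4, ((TT.filter fun T => Inc R δ T q ∧ Pr T (bl R r q)).card : ℝ) := by
    rw [← nsmul_eq_mul]
    exact Finset.card_nsmul_le_sum _ _ _ hM
  have h2 : ∑ q ∈ Q4, (TT.filter fun T => Inc R δ T q ∧ Pr T (bl R r q)).card =
      ∑ T ∈ TT, (Q4.filter fun q => Inc R δ T q ∧ Pr T (bl R r q)).card :=
    Finset.sum_card_bipartiteAbove_eq_sum_card_bipartiteBelow
      (fun q T => Inc R δ T q ∧ Pr T (bl R r q))
  have h3 : ∀ T ∈ TT, (Q4.filter fun q => Inc R δ T q ∧ Pr T (bl R r q)).card ≤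
      4 * 2 ^ (l + k) := by
    intro T hT
    rcases Finset.eq_empty_or_nonempty
      (Q4.filter fun q => Inc R δ T q ∧ Pr T (bl R r q)) with h | ⟨q₀, hq₀⟩
    · rw [h, Finset.card_empty]
      exact Nat.zero_le _
    rw [Finset.mem_filter] at hq₀
    have h4 : (Q4.filter fun q => Inc R δ T q ∧ Pr T (bl R r q)) ⊆
        ((QQ.image (bl R r)).filter fun B' => Pr T B').biUnion fun B =>
          QQ.filter fun q => bl R r q = B ∧ Inc R δ T q := by
      intro q hq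
      rw [Finset.mem_filter] at hq
      rw [Finset.mem_biUnion]
      refine ⟨bl R r q, ?_, ?_⟩
      · rw [Finset.mem_filter]
        exact ⟨Finset.mem_image_of_mem _ (hsub hq.1), hq.2.2⟩
      · rw [Finset.mem_filter]
        exact ⟨hsub hq.1, rfl, hq.2.1⟩
    have h5 := Finset.card_le_card h4
    have h6 : (((QQ.image (bl R r)).filter fun B' => Pr T B').biUnion fun B =>
          QQ.filter fun q => bl R r q = B ∧ Inc R δ T q).card ≤
        ((QQ.image (bl R r)).filter fun B' => Pr T B').card * 2 ^ (l + 1) := by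
      refine Finset.card_biUnion_le_card_mul _ _ _ fun B hB => ?_
      rw [Finset.mem_filter] at hB
      exact (hl T hT B hB.2).le
    have h7 := (hk T hT _ hq₀.2.2).le
    calc _ ≤ ((QQ.image (bl R r)).filter fun B' => Pr T B').card * 2 ^ (l + 1) := h5.trans h6
      _ ≤ 2 ^ (k + 1) * 2 ^ (l + 1) := Nat.mul_le_mul_right _ h7
      _ = 4 * 2 ^ (l + k) := by
          rw [← pow_add]
          have e : k + 1 + (l + 1) = (l + k) + 2 := by omega
          rw [e, pow_add]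
          ring
  have h8 : ∑ T ∈ TT, (Q4.filter fun q => Inc R δ T q ∧ Pr T (bl R r q)).card ≤
      TT.card * (4 * 2 ^ (l + k)) := by
    have := Finset.sum_le_card_nsmul TT _ _ h3
    simpa using this
  have h9 : (∑ q ∈ Q4, ((TT.filter fun T => Inc R δ T q ∧ Pr T (bl R r q)).card : ℝ)) ≤
      TT.card * (4 * 2 ^ (l + k)) := by
    rw [← h2] at h8
    exact_mod_cast h8
  refine h1.trans (h9.trans (le_of_eq ?_))
  ring

open Classical in
/-- the number of the far cubes on a two-ended tube -/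
private theorem far (hCBN : ∀ (ρ : ℝ) (z : Z 2), 0 < ρ → ‖z - ρ • zc (cb ρ z)‖ ≤
      (((2 : ℕ) : ℝ) + 1) * ρ) (C₀ : ℝ)
    (hC : ∀ (ρ : ℝ) (x : Z 2) (J : Finset (Zi 2)), 1 ≤ ρ → (∀ j ∈ J, ‖zc j - x‖ ≤ ρ) →
      (J.card : ℝ) ≤ C₀ * ρ ^ (2 + 2))
    (R δ r : ℝ) (hr : 0 < r) (QQ : Finset (Zi 2)) (Pr : Pk 2 → Zi 2 → Prop) (k l : ℕ)
    (T : Pk 2) (q : Zi 2)
    (hl : ∀ B : Zi 2, Pr T B →
      2 ^ l ≤ (QQ.filter fun q => bl R r q = B ∧ Inc R δ T q).card)
    (hk : 2 ^ k ≤ ((QQ.image (bl R r)).filter fun B' => Pr T B').card)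
    (hC₀ : 2 * (C₀ * 256) ≤ (2 : ℝ) ^ k) :
    (2 : ℝ) ^ (l + k) / 2 ≤
      ((QQ.filter fun q' => Inc R δ T q' ∧ r ≤ ‖co R q - co R q'‖).card : ℝ) := by
  obtain ⟨BB, hBB⟩ : ∃ BB, BB = (QQ.image (bl R r)).filter fun B' => Pr T B' := ⟨_, rfl⟩
  obtain ⟨Nr, hNr⟩ : ∃ Nr, Nr = BB.filter fun B =>
      ∃ q' ∈ QQ, bl R r q' = B ∧ ¬ r ≤ ‖co R q - co R q'‖ := ⟨_, rfl⟩
  have hNc : (Nr.card : ℝ) ≤ C₀ * 256 := by
    have h1 := hC 4 (r⁻¹ • co R q) Nr (by norm_num) (by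
      intro B hB
      rw [hNr, Finset.mem_filter] at hB
      obtain ⟨-, q', hq', hb, hf⟩ := hB
      push Not at hf
      have h2 := hCBN r (co R q') hr
      have h3 : cb r (co R q') = B := hb
      rw [h3] at h2
      have h4 : ‖co R q - r • zc B‖ ≤ 4 * r := by
        have e : co R q - r • zc B = (co R q - co R q') + (co R q' - r • zc B) := by abel
        rw [e]
        refine (norm_add_le _ _).trans ?_
        push_cast at h2
        linarith
      have h5 : zc B - r⁻¹ • co R q = -(r⁻¹ • (co R q - r • zc B)) := by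
        rw [smul_sub, smul_smul, inv_mul_cancel₀ hr.ne', one_smul]
        abel
      rw [h5, norm_neg, norm_smul, Real.norm_eq_abs, abs_of_pos (inv_pos.2 hr),
        inv_mul_le_iff₀ hr]
      linarith)
    norm_num at h1
    linarith
  obtain ⟨Fr, hFr⟩ : ∃ Fr, Fr = BB \ Nr := ⟨_, rfl⟩
  have hNB : Nr ⊆ BB := by
    rw [hNr]
    exact Finset.filter_subset _ _
  have hFc : (2 : ℝ) ^ k / 2 ≤ Fr.card := by
    have h1 : Fr.card + Nr.card = BB.card := by
      rw [hFr]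
      exact Finset.card_sdiff_add_card_eq_card hNB
    have h2 : (Fr.card : ℝ) + Nr.card = BB.card := by exact_mod_cast h1
    have h3 : (2 : ℝ) ^ k ≤ BB.card := by
      rw [hBB]
      exact_mod_cast hk
    linarith
  have hmap : ∀ q' ∈ QQ.filter fun q' => Inc R δ T q' ∧ bl R r q' ∈ Fr, bl R r q' ∈ Fr :=
    fun q' hq' => (Finset.mem_filter.1 hq').2.2
  have hY : Fr.card * 2 ^ l ≤ (QQ.filter fun q' => Inc R δ T q' ∧ bl R r q' ∈ Fr).card := by
    rw [Finset.card_eq_sum_card_fiberwise hmap, ← smul_eq_mul]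
    refine Finset.card_nsmul_le_sum _ _ _ fun B hB => ?_
    have hB' := hB
    rw [hFr, Finset.mem_sdiff, hBB, Finset.mem_filter] at hB'
    refine (hl B hB'.1.2).trans (Finset.card_le_card fun q' hq' => ?_)
    rw [Finset.mem_filter] at hq'
    rw [Finset.mem_filter, Finset.mem_filter]
    exact ⟨⟨hq'.1, hq'.2.2, hq'.2.1 ▸ hB⟩, hq'.2.1⟩
  have hYs : (QQ.filter fun q' => Inc R δ T q' ∧ bl R r q' ∈ Fr) ⊆
      (QQ.filter fun q' => Inc R δ T q' ∧ r ≤ ‖co R q - co R q'‖) := by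
    intro q' hq'
    rw [Finset.mem_filter] at hq' ⊢
    refine ⟨hq'.1, hq'.2.1, ?_⟩
    by_contra hc
    have h1 := hq'.2.2
    rw [hFr, Finset.mem_sdiff] at h1
    refine h1.2 ?_
    rw [hNr, Finset.mem_filter]
    exact ⟨h1.1, q', hq'.1, rfl, hc⟩
  have h2 : ((Fr.card * 2 ^ l : ℕ) : ℝ) ≤
      ((QQ.filter fun q' => Inc R δ T q' ∧ r ≤ ‖co R q - co R q'‖).card : ℝ) :=
    Nat.cast_le.2 (hY.trans (Finset.card_le_card hYs))
  refine le_trans ?_ h2
  push_cast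
  have h3 : (0 : ℝ) < 2 ^ l := by positivity
  calc (2 : ℝ) ^ (l + k) / 2 = (2 ^ k / 2) * 2 ^ l := by
        rw [pow_add]
        ring
    _ ≤ Fr.card * 2 ^ l := mul_le_mul_of_nonneg_right hFc h3.le

theorem pf_KST (hKSA : T_KSA) (hCBN : T_CBN) : T_KST := by
  classical
  obtain ⟨C₁, E₁, hC₁, hE₁, hK⟩ := hKSA
  obtain ⟨hb1, -, C₀, hC₀, hb3, -⟩ := hCBN 2
  refine ⟨max (16 * C₁) (2 * (C₀ * 256)), E₁, le_trans (by linarith) (le_max_left _ _), hE₁, ?_⟩
  intro R δ ε₀ P z₀ TT QQ Q4 Pr M k l hR hδ hε₀ hde hP hT3 hInd hQ hsub hM0 hM hl hk hCk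
  have hr : 0 < R ^ (1 - ε₀) := Real.rpow_pos_of_pos (by linarith) _
  obtain ⟨r, hrr⟩ : ∃ r, r = R ^ (1 - ε₀) := ⟨_, rfl⟩
  rw [← hrr] at hr hM hl hk
  constructor
  · intro i
    exact first R δ r (TT i) QQ Q4 (Pr i) (M i) (k i) (l i) hsub (hM i)
      (fun T hT B hB => (hl i T hT B hB).2) (fun T hT B hB => (hk i T hT B hB).2)
  -- the pairs (tube, end)
  obtain ⟨DD, hDD⟩ : ∃ DD : Zi 2 → Fin 4 → Finset (Σ _ : Pk 2, Zi 2), ∀ q i, DD q i =
      ((TT i).filter fun T => Inc R δ T q ∧ Pr i T (bl R r q)).sigma fun T =>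
        QQ.filter fun q' => Inc R δ T q' ∧ r ≤ ‖co R q - co R q'‖ := ⟨_, fun q i => rfl⟩
  have hDc : ∀ q ∈ Q4, ∀ i, M i * 2 ^ (l i + k i) * (1 / 2) ≤ ((DD q i).card : ℝ) := by
    intro q hq i
    rw [hDD, Finset.card_sigma]
    push_cast
    have h1 : ∀ T ∈ (TT i).filter fun T => Inc R δ T q ∧ Pr i T (bl R r q),
        (2 : ℝ) ^ (l i + k i) / 2 ≤
          ((QQ.filter fun q' => Inc R δ T q' ∧ r ≤ ‖co R q - co R q'‖).card : ℝ) := by
      intro T hT
      rw [Finset.mem_filter] at hT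
      exact far hb1 C₀ hb3 R δ r hr QQ (Pr i) (k i) (l i) T q
        (fun B hB => (hl i T hT.1 B hB).1) (hk i T hT.1 _ hT.2.2).1
        ((le_max_right _ _).trans (hCk i))
    have h2 := Finset.card_nsmul_le_sum _ _ _ h1
    rw [nsmul_eq_mul] at h2
    refine le_trans ?_ h2
    have h3 := hM i q hq
    have h4 : (0 : ℝ) ≤ 2 ^ (l i + k i) / 2 := by positivity
    calc M i * 2 ^ (l i + k i) * (1 / 2) = M i * (2 ^ (l i + k i) / 2) := by ring
      _ ≤ _ := mul_le_mul_of_nonneg_right h3 h4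
  -- all tuples
  obtain ⟨X, hX⟩ : ∃ X : Finset (Σ _ : Zi 2, Fin 4 → (Σ _ : Pk 2, Zi 2)), X =
      Q4.sigma fun q => Fintype.piFinset fun i => DD q i := ⟨_, rfl⟩
  have hlow : (Q4.card : ℝ) * ∏ i, (M i * 2 ^ (l i + k i) * (1 / 2)) ≤ X.card := by
    rw [hX, Finset.card_sigma]
    push_cast
    rw [← nsmul_eq_mul]
    refine Finset.card_nsmul_le_sum _ _ _ fun q hq => ?_
    rw [Fintype.card_piFinset]
    push_cast
    refine Finset.prod_le_prod (fun i _ => ?_) fun i _ => hDc q hq i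
    have := hM0 i
    positivity
  have hmap : ∀ x ∈ X, (fun i => (x.2 i).2) ∈ Fintype.piFinset fun _ : Fin 4 => QQ := by
    intro x hx
    rw [hX, Finset.mem_sigma, Fintype.mem_piFinset] at hx
    rw [Fintype.mem_piFinset]
    intro i
    have h1 := hx.2 i
    rw [hDD, Finset.mem_sigma, Finset.mem_filter, Finset.mem_filter] at h1
    exact h1.2.1
  have hup : (X.card : ℝ) ≤ (QQ.card : ℝ) ^ 4 * (C₁ * P ^ E₁ * R ^ (E₁ * (δ + ε₀))) := by
    rw [Finset.card_eq_sum_card_fiberwise hmap]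
    push_cast
    have h0 : ∀ q' ∈ Fintype.piFinset fun _ : Fin 4 => QQ,
        ((X.filter fun x => (fun i => (x.2 i).2) = q').card : ℝ) ≤
          C₁ * P ^ E₁ * R ^ (E₁ * (δ + ε₀)) := by
      intro q' hq'
      rw [Fintype.mem_piFinset] at hq'
      obtain ⟨g, hg⟩ : ∃ g : (Σ _ : Zi 2, Fin 4 → (Σ _ : Pk 2, Zi 2)) →
          Zi 2 × (Fin 4 → Pk 2), ∀ x, g x = (x.1, fun i => (x.2 i).1) := ⟨_, fun x => rfl⟩
      have hinj : Set.InjOn g (X.filter fun x => (fun i => (x.2 i).2) = q' : Finset _) := by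
        intro x hx y hy hxy
        rw [Finset.mem_coe, Finset.mem_filter] at hx hy
        rw [hg, hg, Prod.mk.injEq] at hxy
        obtain ⟨x1, x2⟩ := x
        obtain ⟨y1, y2⟩ := y
        obtain ⟨h1, h2⟩ := hxy
        have h3 : x2 = y2 := by
          funext i
          have h4 : (x2 i).1 = (y2 i).1 := congrFun h2 i
          have h5 : (x2 i).2 = (y2 i).2 := congrFun (hx.2.trans hy.2.symm) i
          exact Sigma.ext h4 (heq_of_eq h5)
        change x1 = y1 at h1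
        rw [h1, h3]
      rw [← Finset.card_image_of_injOn hinj]
      refine hK R δ ε₀ P q' _ hR hδ hε₀ hde hP ?_
      intro f hf
      rw [Finset.mem_image] at hf
      obtain ⟨x, hx, rfl⟩ := hf
      rw [Finset.mem_filter, hX, Finset.mem_sigma, Fintype.mem_piFinset] at hx
      obtain ⟨⟨hx1, hx2⟩, hx3⟩ := hx
      have hx4 : ∀ i, ((x.2 i).1 ∈ TT i ∧ Inc R δ (x.2 i).1 x.1) ∧
          (x.2 i).2 ∈ QQ ∧ Inc R δ (x.2 i).1 (x.2 i).2 ∧
          r ≤ ‖co R x.1 - co R (x.2 i).2‖ := by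
        intro i
        have h1 := hx2 i
        rw [hDD, Finset.mem_sigma, Finset.mem_filter, Finset.mem_filter] at h1
        exact ⟨⟨h1.1.1, h1.1.2.1⟩, h1.2.1, h1.2.2.1, h1.2.2.2⟩
      have hx5 : ∀ i, (x.2 i).2 = q' i := fun i => congrFun hx3 i
      rw [hg]
      refine ⟨hInd (fun i => (x.2 i).1) fun i => (hx4 i).1.1, fun i => ?_⟩
      obtain ⟨⟨h1, h2⟩, h3, h4, h5⟩ := hx4 i
      rw [hx5 i] at h4 h5
      refine ⟨hT3 i _ h1, h2, h4, ?_, ?_⟩
      · rw [← hrr]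
        exact h5
      · have h6 := hQ x.1 (hsub hx1)
        have h7 := hQ (q' i) (hq' i)
        have e : co R x.1 - co R (q' i) = (co R x.1 - z₀) - (co R (q' i) - z₀) := by abel
        change ‖co R x.1 - co R (q' i)‖ ≤ 10 * R
        rw [e]
        refine (norm_sub_le _ _).trans ?_
        linarith
    refine (Finset.sum_le_card_nsmul _ _ _ h0).trans (le_of_eq ?_)
    rw [Fintype.card_piFinset_const, nsmul_eq_mul]
    push_cast
    ring
  have hprod : ∏ i, (M i * 2 ^ (l i + k i) * (1 / 2)) =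
      (∏ i, (M i * 2 ^ (l i + k i))) * (1 / 16) := by
    rw [Finset.prod_mul_distrib, Finset.prod_const, Finset.card_univ, Fintype.card_fin]
    norm_num
  rw [hprod] at hlow
  have hfin : (Q4.card : ℝ) * ∏ i, (M i * 2 ^ (l i + k i)) ≤
      16 * C₁ * P ^ E₁ * R ^ (E₁ * (δ + ε₀)) * (QQ.card : ℝ) ^ 4 := by
    have h1 := hlow.trans hup
    linarith
  refine hfin.trans ?_
  have hP0 : 0 ≤ P ^ E₁ := Real.rpow_nonneg (by linarith) _
  have hR0 : 0 ≤ R ^ (E₁ * (δ + ε₀)) := Real.rpow_nonneg (by linarith) _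
  have hm : 16 * C₁ ≤ max (16 * C₁) (2 * (C₀ * 256)) := le_max_left _ _
  gcongr

end Pool.Agent.H42.FPL
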