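import Pool.Agent.H82.FP.Targets

/-! Board `flp_modules`, row TUB: the weight of a tube is dominated by dyadic tubes. -/

set_option autoImplicit false

namespace Pool.Agent.H42.FPL

open MeasureTheory Set
open Pool.Agent.H83.G
open Pool.Agent.H82.FP
open scoped ENNReal NNReal RealInnerProductSpace

/-- the weight on the dyadic scale -/
private theorem wt_dyadic (N : ℕ) (τ : ℝ) (hτ : 0 ≤ τ) :
    ∃ l : ℕ, τ ≤ 2 ^ l ∧ ((1 + τ) ^ N)⁻¹ ≤ 2 ^ N * ((2 : ℝ) ^ (N * l))⁻¹ := by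
  classical
  have hex : ∃ l : ℕ, τ ≤ 2 ^ l := by
    obtain ⟨l, hl⟩ := pow_unbounded_of_one_lt τ (by norm_num : (1 : ℝ) < 2)
    exact ⟨l, hl.le⟩
  refine ⟨Nat.find hex, Nat.find_spec hex, ?_⟩
  have h1 : (2 : ℝ) ^ (Nat.find hex) ≤ 2 * (1 + τ) := by
    rcases hl : Nat.find hex with _ | l
    · simp only [pow_zero]
      linarith
    · have h2 := Nat.find_min hex (m := l) (by omega)
      push Not at h2
      rw [pow_succ]
      linarith
  have h3 : (2 : ℝ) ^ (N * Nat.find hex) ≤ 2 ^ N * (1 + τ) ^ N := by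
    rw [mul_comm N, pow_mul, ← mul_pow]
    exact pow_le_pow_left₀ (by positivity) h1 N
  have h4 : (0 : ℝ) < (1 + τ) ^ N := by positivity
  have h5 : (0 : ℝ) < 2 ^ (N * Nat.find hex) := by positivity
  rw [← one_div, ← div_eq_mul_inv, div_le_div_iff₀ h4 h5, one_mul]
  exact h3

theorem pf_TUB : T_TUB := by
  intro N D hD
  refine ⟨2 ^ N * (1 + D), ?_, ?_⟩
  · have h1 : (1 : ℝ) ≤ 2 ^ N := one_le_pow₀ (by norm_num)
    nlinarith
  intro η s z z' hs hη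
  have h2N : (1 : ℝ) ≤ 2 ^ N := one_le_pow₀ (by norm_num)
  obtain ⟨x, hx⟩ : ∃ x : Z 2, x = z - z' := ⟨_, rfl⟩
  rw [← hx]
  obtain ⟨l, hl1, hl2⟩ := wt_dyadic N ‖Tu η s x‖ (norm_nonneg _)
  have hs0 : 0 < s := by linarith
  -- the components
  have hn1 : |s⁻¹ * (x.1 + ⟪x.2.1, η⟫ + x.2.2 * ‖η‖ ^ 2)| ≤ ‖Tu η s x‖ := by
    have := norm_fst_le (Tu η s x)
    rw [Real.norm_eq_abs] at this
    exact this
  have hn2 : ‖s⁻¹ • (x.2.1 + (2 * x.2.2) • η)‖ ≤ ‖Tu η s x‖ :=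
    (norm_fst_le (Tu η s x).2).trans (norm_snd_le (Tu η s x))
  have hm1 : |x.1 + ⟪x.2.1, η⟫ + x.2.2 * ‖η‖ ^ 2| ≤ s * ‖Tu η s x‖ := by
    rw [abs_mul, abs_of_pos (inv_pos.2 hs0), inv_mul_le_iff₀ hs0] at hn1
    exact hn1
  have hm2 : ‖x.2.1 + (2 * x.2.2) • η‖ ≤ s * ‖Tu η s x‖ := by
    rw [norm_smul, Real.norm_eq_abs, abs_of_pos (inv_pos.2 hs0), inv_mul_le_iff₀ hs0] at hn2
    exact hn2
  have hm3 : |x.1 - x.2.2 * ‖η‖ ^ 2| ≤ (1 + D) * (s * ‖Tu η s x‖) := by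
    have e1 : x.1 - x.2.2 * ‖η‖ ^ 2 = (x.1 + ⟪x.2.1, η⟫ + x.2.2 * ‖η‖ ^ 2) -
        ⟪x.2.1 + (2 * x.2.2) • η, η⟫ := by
      rw [inner_add_left, real_inner_smul_left, real_inner_self_eq_norm_sq]
      ring
    have e2 := abs_real_inner_le_norm (x.2.1 + (2 * x.2.2) • η) η
    have e3 : ‖x.2.1 + (2 * x.2.2) • η‖ * ‖η‖ ≤ s * ‖Tu η s x‖ * D :=
      mul_le_mul hm2 hη (norm_nonneg _) (by positivity)
    rw [e1]
    refine (abs_sub _ _).trans ?_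
    nlinarith
  have hτ : s * ‖Tu η s x‖ ≤ s * 2 ^ l := mul_le_mul_of_nonneg_left hl1 hs0.le
  have hmem : ((z', η) : Z 2 × E 2) ∈ TZ (2 ^ N * (1 + D) * 2 ^ l * s) z := by
    change ‖z - z' - (z.2.2 - z'.2.2) • Dv η‖ ≤ 2 ^ N * (1 + D) * 2 ^ l * s
    have e4 : z - z' - (z.2.2 - z'.2.2) • Dv η =
        ((x.1 - x.2.2 * ‖η‖ ^ 2, x.2.1 + (2 * x.2.2) • η, 0) : Z 2) := by
      rw [hx]
      refine Prod.ext ?_ (Prod.ext ?_ ?_)
      · rfl
      · change (z - z').2.1 - (z.2.2 - z'.2.2) • ((-2 : ℝ) • η) =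
          (z - z').2.1 + (2 * (z - z').2.2) • η
        rw [smul_smul, sub_eq_add_neg, ← neg_smul]
        congr 2
        change -((z.2.2 - z'.2.2) * -2) = 2 * (z.2.2 - z'.2.2)
        ring
      · change (z.2.2 - z'.2.2) - (z.2.2 - z'.2.2) * 1 = 0
        ring
    have hB : (1 + D) * (s * 2 ^ l) ≤ 2 ^ N * (1 + D) * 2 ^ l * s := by
      have h6 : 0 ≤ (1 + D) * (s * 2 ^ l) := by positivity
      calc (1 + D) * (s * 2 ^ l) = 1 * ((1 + D) * (s * 2 ^ l)) := by ring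
        _ ≤ 2 ^ N * ((1 + D) * (s * 2 ^ l)) := mul_le_mul_of_nonneg_right h2N h6
        _ = _ := by ring
    have h7 : s * ‖Tu η s x‖ ≤ (1 + D) * (s * 2 ^ l) := by
      have h8 : 0 ≤ s * 2 ^ l := by positivity
      nlinarith
    rw [e4, Prod.norm_def, Prod.norm_def]
    refine max_le ?_ (max_le ?_ ?_)
    · rw [Real.norm_eq_abs]
      refine hm3.trans (le_trans ?_ hB)
      exact mul_le_mul_of_nonneg_left hτ (by linarith)
    · exact hm2.trans (h7.trans hB)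
    · rw [norm_zero]
      positivity
  refine le_trans ?_ (ENNReal.le_tsum l)
  rw [Set.indicator_of_mem hmem, Pi.one_apply, mul_one]
  refine ENNReal.ofReal_le_ofReal ?_
  unfold wt
  refine hl2.trans ?_
  refine mul_le_mul_of_nonneg_right ?_ (by positivity)
  nlinarith

end Pool.Agent.H42.FPL
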